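import Pool.Agent.Helper10.AB.GoalsEMB

/-! # Project AB, module EMB: the group action (packet ACT1) -/

open Set Filter Topology
open scoped ContDiff

noncomputable section

namespace Pool.Agent.Helper14.AB

open Pool.Agent.Helper24.AB Pool.Agent.Helper10.AB

/-- the translation vector of `gE ^ k` -/
def off (k : ℤ) : V4 := fun j => if j = 3 then 2 * Real.pi * Complex.I * k else 0

theorem gE_eq (P : V4) : gE P = gL P + off 1 := by
  funext i
  fin_cases i <;> simp [gE, gL, gLin, off]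

theorem gE_inv_eq (P : V4) : gE⁻¹ P = gL.symm P + off (-1) := by
  funext i
  fin_cases i <;> simp [gE, gL, gLin, off, Equiv.Perm.inv_def]
  ring

theorem gL_off (k : ℤ) : gL (off k) = off k := by
  funext i
  fin_cases i <;> simp [gL, gLin, off]

theorem gLs_off (k : ℤ) : gL.symm (off k) = off k := by
  rw [ContinuousLinearEquiv.symm_apply_eq, gL_off]

theorem off_add (k l : ℤ) : off k + off l = off (k + l) := by
  funext i
  by_cases h : i = 3
  · simp [off, h]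
    ring
  · simp [off, h]

theorem gk_succ (k : ℤ) (v : V4) : gk (k + 1) v = gL (gk k v) := by
  have h : gL ^ (k + 1) = gL * gL ^ k := by rw [add_comm, zpow_one_add]
  unfold gk
  rw [h]
  rfl

theorem gk_pred (k : ℤ) (v : V4) : gk (k - 1) v = gL.symm (gk k v) := by
  have h : gL ^ (k - 1) = gL⁻¹ * gL ^ k := by
    rw [sub_eq_add_neg, add_comm, zpow_add, zpow_neg_one]
  unfold gk
  rw [h]
  rfl

theorem gk_zero (v : V4) : gk 0 v = v := by
  unfold gk
  rw [zpow_zero]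
  rfl

theorem gE_succ (k : ℤ) (P : V4) : (gE ^ (k + 1)) P = gE ((gE ^ k) P) := by
  rw [add_comm, zpow_one_add]
  rfl

theorem gE_pred (k : ℤ) (P : V4) : (gE ^ (k - 1)) P = gE⁻¹ ((gE ^ k) P) := by
  rw [sub_eq_add_neg, add_comm, zpow_add, zpow_neg_one]
  rfl

theorem gE_pow (k : ℤ) (P : V4) : (gE ^ k) P = gk k P + off k := by
  induction k using Int.induction_on with
  | zero =>
    rw [gk_zero, zpow_zero]
    funext i
    simp [off]
  | succ n ih =>
    rw [gE_succ, ih, gE_eq, gk_succ, map_add, gL_off, add_assoc, off_add]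
  | pred n ih =>
    rw [gE_pred, ih, gE_inv_eq, gk_pred, map_add, gLs_off, add_assoc, off_add]
    rfl

theorem norm_gL_le (v : V4) : ‖gL v‖ ≤ 3 * ‖v‖ := by
  have h0 : ∀ i, ‖v i‖ ≤ ‖v‖ := fun i => norm_le_pi_norm v i
  have hn : 0 ≤ ‖v‖ := norm_nonneg v
  rw [pi_norm_le_iff_of_nonneg (by positivity)]
  intro i
  fin_cases i
  · change ‖2 * v 0 + v 1‖ ≤ 3 * ‖v‖
    refine (norm_add_le _ _).trans ?_
    rw [norm_mul, Complex.norm_ofNat]
    linarith [h0 0, h0 1]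
  · change ‖v 0 + v 1‖ ≤ 3 * ‖v‖
    refine (norm_add_le _ _).trans ?_
    linarith [h0 0, h0 1]
  · change ‖v 2‖ ≤ 3 * ‖v‖
    linarith [h0 2]
  · change ‖v 3‖ ≤ 3 * ‖v‖
    linarith [h0 3]

theorem norm_gLs_le (v : V4) : ‖gL.symm v‖ ≤ 3 * ‖v‖ := by
  have h0 : ∀ i, ‖v i‖ ≤ ‖v‖ := fun i => norm_le_pi_norm v i
  have hn : 0 ≤ ‖v‖ := norm_nonneg v
  rw [pi_norm_le_iff_of_nonneg (by positivity)]
  intro i
  fin_cases i
  · change ‖v 0 - v 1‖ ≤ 3 * ‖v‖
    refine (norm_sub_le _ _).trans ?_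
    linarith [h0 0, h0 1]
  · change ‖2 * v 1 - v 0‖ ≤ 3 * ‖v‖
    refine (norm_sub_le _ _).trans ?_
    rw [norm_mul, Complex.norm_ofNat]
    linarith [h0 0, h0 1]
  · change ‖v 2‖ ≤ 3 * ‖v‖
    linarith [h0 2]
  · change ‖v 3‖ ≤ 3 * ‖v‖
    linarith [h0 3]

theorem norm_gk_le (k : ℤ) (v : V4) : ‖gk k v‖ ≤ (3 : ℝ) ^ k.natAbs * ‖v‖ := by
  induction k using Int.induction_on with
  | zero => simp [gk_zero]
  | succ n ih =>
    rw [gk_succ]
    have h : (((n : ℤ) + 1).natAbs) = (n : ℤ).natAbs + 1 := by omega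
    rw [h, pow_succ]
    refine (norm_gL_le _).trans ?_
    linarith
  | pred n ih =>
    rw [gk_pred]
    have h : ((-(n : ℤ) - 1).natAbs) = (-(n : ℤ)).natAbs + 1 := by omega
    rw [h, pow_succ]
    refine (norm_gLs_le _).trans ?_
    linarith

theorem gk_three (k : ℤ) (v : V4) : gk k v 3 = v 3 := by
  induction k using Int.induction_on with
  | zero => rw [gk_zero]
  | succ n ih =>
    rw [gk_succ]
    exact ih
  | pred n ih =>
    rw [gk_pred]
    exact ih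

theorem core_gE {P : V4} (h : Core P) : Core (gE P) := by
  intro i
  fin_cases i
  · change (2 * P 0 + P 1).re = 0
    simp [h 0, h 1]
  · change (P 0 + P 1).re = 0
    simp [h 0, h 1]
  · exact h 2
  · change (P 3 + 2 * Real.pi * Complex.I).re = 0
    simp [h 3]

theorem core_gE_inv {P : V4} (h : Core P) : Core (gE⁻¹ P) := by
  intro i
  fin_cases i
  · change (P 0 - P 1).re = 0
    simp [h 0, h 1]
  · change (2 * P 1 - P 0).re = 0
    simp [h 0, h 1]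
  · exact h 2
  · change (P 3 - 2 * Real.pi * Complex.I).re = 0
    simp [h 3]

theorem core_pow (k : ℤ) {P : V4} (h : Core P) : Core ((gE ^ k) P) := by
  induction k using Int.induction_on with
  | zero => simpa using h
  | succ n ih =>
    rw [gE_succ]
    exact core_gE ih
  | pred n ih =>
    rw [gE_pred]
    exact core_gE_inv ih

theorem gE_tE (m : Fin 3 → ℤ) (P : V4) :
    gE (tE m P) = tE ![2 * m 0 + m 1, m 0 + m 1, m 2] (gE P) := by
  funext i
  fin_cases i <;> simp [gE, tE] <;> ring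

theorem gEi_tE (m : Fin 3 → ℤ) (P : V4) :
    gE⁻¹ (tE m P) = tE ![m 0 - m 1, 2 * m 1 - m 0, m 2] (gE⁻¹ P) := by
  funext i
  fin_cases i <;> simp [gE, tE, Equiv.Perm.inv_def] <;> ring

theorem pow_tE (k : ℤ) (m : Fin 3 → ℤ) :
    ∃ m' : Fin 3 → ℤ, ∀ P, (gE ^ k) (tE m P) = tE m' ((gE ^ k) P) := by
  induction k using Int.induction_on with
  | zero => exact ⟨m, fun P => by simp⟩
  | succ n ih =>
    obtain ⟨m', hm⟩ := ih
    refine ⟨![2 * m' 0 + m' 1, m' 0 + m' 1, m' 2], fun P => ?_⟩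
    rw [gE_succ, hm, gE_tE, ← gE_succ]
  | pred n ih =>
    obtain ⟨m', hm⟩ := ih
    refine ⟨![m' 0 - m' 1, 2 * m' 1 - m' 0, m' 2], fun P => ?_⟩
    rw [gE_pred, hm, gEi_tE, ← gE_pred]

theorem tE_zero (P : V4) : tE 0 P = P := by
  funext i
  fin_cases i <;> simp [tE]

theorem tE_add (m n : Fin 3 → ℤ) (P : V4) : tE m (tE n P) = tE (m + n) P := by
  funext i
  fin_cases i <;> simp [tE] <;> ring

theorem pow_add_apply (j k : ℤ) (P : V4) : (gE ^ (j + k)) P = (gE ^ j) ((gE ^ k) P) := by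
  rw [zpow_add]
  rfl

theorem rel_refl (P : V4) : GamRel P P := ⟨0, 0, by rw [tE_zero, zpow_zero]; rfl⟩

theorem rel_symm {P Q : V4} (h : GamRel P Q) : GamRel Q P := by
  obtain ⟨j, k, rfl⟩ := h
  obtain ⟨m', hm⟩ := pow_tE (-j) (-k)
  refine ⟨-j, m', ?_⟩
  have h1 : tE (-k) (tE k ((gE ^ j) P)) = (gE ^ j) P := by
    rw [tE_add, neg_add_cancel, tE_zero]
  rw [← hm, h1, ← pow_add_apply, neg_add_cancel, zpow_zero]
  rfl

theorem rel_trans {P Q R : V4} (h : GamRel P Q) (h' : GamRel Q R) : GamRel P R := by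
  obtain ⟨j, k, rfl⟩ := h
  obtain ⟨j', k', rfl⟩ := h'
  obtain ⟨m', hm⟩ := pow_tE j' k
  refine ⟨j' + j, k' + m', ?_⟩
  rw [hm, tE_add, pow_add_apply]

theorem floor_aux (x : ℝ) : 0 ≤ x + 2 * Real.pi * (-⌊x / (2 * Real.pi)⌋ : ℤ) ∧
    x + 2 * Real.pi * (-⌊x / (2 * Real.pi)⌋ : ℤ) < 2 * Real.pi := by
  have hp : 0 < 2 * Real.pi := by positivity
  have h1 := Int.floor_le (x / (2 * Real.pi))
  have h2 := Int.lt_floor_add_one (x / (2 * Real.pi))
  have h3 : x = x / (2 * Real.pi) * (2 * Real.pi) := by field_simp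
  push_cast
  constructor
  · nlinarith
  · nlinarith

theorem reduce (P : V4) : ∃ (k : ℤ) (m : Fin 3 → ℤ), ∀ i, 0 ≤ (tE m ((gE ^ k) P) i).im ∧
    (tE m ((gE ^ k) P) i).im < 2 * Real.pi := by
  set k : ℤ := -⌊(P 3).im / (2 * Real.pi)⌋ with hk
  refine ⟨k, ![-⌊((gE ^ k) P 0).im / (2 * Real.pi)⌋, -⌊((gE ^ k) P 1).im / (2 * Real.pi)⌋,
    -⌊((gE ^ k) P 2).im / (2 * Real.pi)⌋], ?_⟩
  have him : ∀ (z : ℂ) (n : ℤ), (z + 2 * Real.pi * Complex.I * n).im = z.im + 2 * Real.pi * n := by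
    intro z n
    simp
  intro i
  fin_cases i
  · change 0 ≤ ((gE ^ k) P 0 + 2 * Real.pi * Complex.I *
      ((-⌊((gE ^ k) P 0).im / (2 * Real.pi)⌋ : ℤ) : ℂ)).im ∧ ((gE ^ k) P 0 + 2 * Real.pi * Complex.I *
      ((-⌊((gE ^ k) P 0).im / (2 * Real.pi)⌋ : ℤ) : ℂ)).im < 2 * Real.pi
    rw [him]
    exact floor_aux _
  · change 0 ≤ ((gE ^ k) P 1 + 2 * Real.pi * Complex.I *
      ((-⌊((gE ^ k) P 1).im / (2 * Real.pi)⌋ : ℤ) : ℂ)).im ∧ ((gE ^ k) P 1 + 2 * Real.pi * Complex.I *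
      ((-⌊((gE ^ k) P 1).im / (2 * Real.pi)⌋ : ℤ) : ℂ)).im < 2 * Real.pi
    rw [him]
    exact floor_aux _
  · change 0 ≤ ((gE ^ k) P 2 + 2 * Real.pi * Complex.I *
      ((-⌊((gE ^ k) P 2).im / (2 * Real.pi)⌋ : ℤ) : ℂ)).im ∧ ((gE ^ k) P 2 + 2 * Real.pi * Complex.I *
      ((-⌊((gE ^ k) P 2).im / (2 * Real.pi)⌋ : ℤ) : ℂ)).im < 2 * Real.pi
    rw [him]
    exact floor_aux _
  · change 0 ≤ ((gE ^ k) P 3).im ∧ ((gE ^ k) P 3).im < 2 * Real.pi
    have h1 : (gE ^ k) P 3 = P 3 + 2 * Real.pi * Complex.I * k := by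
      rw [gE_pow]
      change gk k P 3 + off k 3 = _
      rw [gk_three]
      simp [off]
    rw [h1, him, hk]
    exact floor_aux _

theorem mon_tE (J m : Fin 3 → ℤ) (P : V4) : mon J (tE m P) = mon J P := by
  unfold mon
  have h1 : (J 0 : ℂ) * tE m P 0 + (J 1 : ℂ) * tE m P 1 + (J 2 : ℂ) * tE m P 2 =
      ((J 0 : ℂ) * P 0 + (J 1 : ℂ) * P 1 + (J 2 : ℂ) * P 2) +
        ((J 0 * m 0 + J 1 * m 1 + J 2 * m 2 : ℤ) : ℂ) * (2 * Real.pi * Complex.I) := by
    simp [tE]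
    ring
  rw [h1, Complex.exp_add, Complex.exp_int_mul_two_pi_mul_I, mul_one]

theorem hC_tE (β : ℂ → ℂ) (J m : Fin 3 → ℤ) (P : V4) : hC β J (tE m P) = hC β J P := by
  unfold hC
  rw [mon_tE]
  rfl

theorem TS_inv (β : ℂ → ℂ) (J : Fin 3 → ℤ) (P : V4) : TS β J (gE P) = TS β J P ∧
    ∀ m, TS β J (tE m P) = TS β J P := by
  constructor
  · unfold TS
    have h1 : ∀ k : ℤ, hC β J ((gE ^ k) (gE P)) = hC β J ((gE ^ (Equiv.addRight (1 : ℤ) k)) P) := by
      intro k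
      rw [Equiv.coe_addRight, zpow_add_one]
      rfl
    rw [tsum_congr h1]
    exact Equiv.tsum_eq (Equiv.addRight (1 : ℤ)) fun k => hC β J ((gE ^ k) P)
  · intro m
    unfold TS
    refine tsum_congr fun k => ?_
    obtain ⟨m', hm⟩ := pow_tE k m
    rw [hm, hC_tE]

theorem act1 : S_ACT1 := by
  refine ⟨fun k P => ?_, fun k => ?_, gk_three, fun k P h => core_pow k h, pow_tE, rel_refl,
    fun P Q => rel_symm, fun P Q R => rel_trans, reduce, TS_inv⟩
  · rw [gE_pow]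
    rfl
  · exact ContinuousLinearMap.opNorm_le_bound _ (by positivity) (norm_gk_le k)

end Pool.Agent.Helper14.AB
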