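import Pool.Agent.Helper14.AB.ACT1

/-! # Project AB, module EMB: closeness on the core (packet CLO) -/

open Set Filter Topology
open scoped ContDiff

noncomputable section

namespace Pool.Agent.Helper14.AB

open Pool.Agent.Helper24.AB Pool.Agent.Helper10.AB

theorem gE_pow_three (k : ℤ) (P : V4) :
    (gE ^ k) P 3 = P 3 + 2 * Real.pi * Complex.I * k := by
  rw [gE_pow]
  change gk k P 3 + off k 3 = _
  rw [gk_three]
  simp [off]

theorem arg_re (k : ℤ) (P : V4) :
    (-(Complex.I * (gE ^ k) P 3)).re = (P 3).im + 2 * Real.pi * k := by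
  rw [gE_pow_three]
  simp

theorem arg_core {Q : V4} (h : Core Q) : -(Complex.I * Q 3) = (((Q 3).im : ℝ) : ℂ) := by
  have h1 : Q 3 = (((Q 3).im : ℝ) : ℂ) * Complex.I := by
    apply Complex.ext
    · simp [h 3]
    · simp
  conv_lhs => rw [h1]
  rw [mul_comm (((Q 3).im : ℝ) : ℂ) Complex.I, ← mul_assoc, Complex.I_mul_I]
  ring

theorem norm_mon_core (J : Fin 3 → ℤ) {Q : V4} (h : Core Q) : ‖mon J Q‖ = 1 := by
  unfold mon
  rw [Complex.norm_exp]
  have h1 : ((J 0 : ℂ) * Q 0 + (J 1 : ℂ) * Q 1 + (J 2 : ℂ) * Q 2).re = 0 := by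
    simp [h 0, h 1, h 2]
  rw [h1, Real.exp_zero]

theorem supp_bound {b : ℝ → ℝ} (hb : HasCompactSupport b) : ∃ K : ℝ, 0 ≤ K ∧ ∀ x, K < |x| →
    b x = 0 ∧ deriv b x = 0 := by
  obtain ⟨K, hK⟩ := hb.isCompact.isBounded.subset_closedBall 0
  refine ⟨max K 0, le_max_right _ _, fun x hx => ?_⟩
  have h1 : x ∉ tsupport b := by
    intro h
    have h2 := hK h
    rw [mem_closedBall_zero_iff, Real.norm_eq_abs] at h2
    exact absurd (h2.trans (le_max_left K 0)) (not_le.2 hx)
  refine ⟨image_eq_zero_of_notMem_tsupport h1, ?_⟩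
  by_contra h3
  exact h1 (support_deriv_subset h3)

theorem far {K R : ℝ} {x : ℝ} {k : ℤ} {N : ℕ} (hx : |x| < R) (hN : K + R ≤ N)
    (hk : k ∉ Finset.Icc (-(N : ℤ)) N) : K < |x + 2 * Real.pi * k| := by
  have h1 : (N : ℝ) + 1 ≤ |(k : ℝ)| := by
    have h2 : (N : ℤ) + 1 ≤ |k| := by
      rw [Finset.mem_Icc, not_and_or, not_le, not_le] at hk
      rcases hk with h | h
      · have := neg_le_abs k
        omega
      · have := le_abs_self k
        omega
    have h3 : (((N : ℤ) + 1 : ℤ) : ℝ) ≤ ((|k| : ℤ) : ℝ) := by exact_mod_cast h2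
    rw [Int.cast_abs] at h3
    push_cast at h3
    exact h3
  have h2 : |2 * Real.pi * k| - |x| ≤ |x + 2 * Real.pi * k| := by
    have := abs_sub_abs_le_abs_sub (2 * Real.pi * (k : ℝ)) (-x)
    rw [abs_neg] at this
    have h3 : 2 * Real.pi * (k : ℝ) - -x = x + 2 * Real.pi * k := by ring
    rwa [h3] at this
  have h3 : |2 * Real.pi * (k : ℝ)| = 2 * Real.pi * |(k : ℝ)| := by
    rw [abs_mul, abs_of_pos (by positivity)]
  have h4 := Real.pi_gt_three
  have h5 : |(k : ℝ)| ≤ 2 * Real.pi * |(k : ℝ)| := by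
    have := abs_nonneg (k : ℝ)
    nlinarith
  linarith

theorem cont_pow (k : ℤ) : Continuous fun P : V4 => (gE ^ k) P := by
  have h : (fun P : V4 => (gE ^ k) P) = fun P => gk k P + off k := by
    funext P
    exact gE_pow k P
  rw [h]
  fun_prop

theorem cont_mon (J : Fin 3 → ℤ) : Continuous (mon J) := by
  unfold mon
  fun_prop

theorem cont_hC {b : ℝ → ℝ} (hb : Continuous b) (J : Fin 3 → ℤ) : Continuous (hC (up b) J) := by
  unfold hC up
  have h1 := cont_mon J
  fun_prop

theorem cont_hD {b b' : ℝ → ℝ} (hb : Continuous b) (hb' : Continuous b') (J : Fin 3 → ℤ) :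
    Continuous (hD (up b) (up b') J) := by
  unfold hD up
  have h1 := cont_mon J
  fun_prop

theorem hC_zero {b : ℝ → ℝ} {K : ℝ} (hK : ∀ x, K < |x| → b x = 0 ∧ deriv b x = 0)
    (J : Fin 3 → ℤ) {k : ℤ} {P : V4} (h : K < |(P 3).im + 2 * Real.pi * k|) :
    hC (up b) J ((gE ^ k) P) = 0 := by
  unfold hC up
  rw [arg_re, (hK _ h).1]
  simp

theorem hD_zero {b : ℝ → ℝ} {K : ℝ} (hK : ∀ x, K < |x| → b x = 0 ∧ deriv b x = 0)
    (J : Fin 3 → ℤ) {k : ℤ} {P : V4} (h : K < |(P 3).im + 2 * Real.pi * k|) :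
    (hD (up b) (up (deriv b)) J ((gE ^ k) P)).comp (gk k) = 0 := by
  unfold hD up
  rw [arg_re, (hK _ h).1, (hK _ h).2]
  apply ContinuousLinearMap.ext
  intro v
  simp

theorem clo_cont (J : Fin 3 → ℤ) {b : ℝ → ℝ} (hb : ContDiff ℝ 1 b) (hs : HasCompactSupport b) :
    Continuous (TS (up b) J) ∧ Continuous (TD (up b) (up (deriv b)) J) := by
  obtain ⟨K, hK0, hK⟩ := supp_bound hs
  have hb0 := hb.continuous
  have hb1 := hb.continuous_deriv le_rfl
  have hopen : ∀ P : V4, {Q : V4 | |(Q 3).im| < |(P 3).im| + 1} ∈ 𝓝 P := by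
    intro P
    refine IsOpen.mem_nhds ?_ ?_
    · exact isOpen_lt (by fun_prop) continuous_const
    · change |(P 3).im| < |(P 3).im| + 1
      linarith
  constructor
  · rw [continuous_iff_continuousAt]
    intro P
    obtain ⟨N, hN⟩ := exists_nat_ge (K + (|(P 3).im| + 1))
    have h1 : ContinuousAt (fun Q : V4 => ∑ k ∈ Finset.Icc (-(N : ℤ)) N,
        hC (up b) J ((gE ^ k) Q)) P := by
      refine Continuous.continuousAt (continuous_finsetSum _ fun k _ => ?_)
      exact (cont_hC hb0 J).comp (cont_pow k)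
    refine h1.congr ?_
    filter_upwards [hopen P] with Q hQ
    unfold TS
    rw [tsum_eq_sum fun k hk => hC_zero hK J (far hQ hN hk)]
  · rw [continuous_iff_continuousAt]
    intro P
    obtain ⟨N, hN⟩ := exists_nat_ge (K + (|(P 3).im| + 1))
    have h1 : ContinuousAt (fun Q : V4 => ∑ k ∈ Finset.Icc (-(N : ℤ)) N,
        (hD (up b) (up (deriv b)) J ((gE ^ k) Q)).comp (gk k)) P := by
      refine Continuous.continuousAt (continuous_finsetSum _ fun k _ => ?_)
      exact ((cont_hD hb0 hb1 J).comp (cont_pow k)).clm_comp continuous_const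
    refine h1.congr ?_
    filter_upwards [hopen P] with Q hQ
    unfold TD
    rw [tsum_eq_sum fun k hk => hD_zero hK J (far hQ hN hk)]

theorem summable_third : Summable fun k : ℤ => ((1 : ℝ) / 3) ^ k.natAbs := by
  have h : Summable fun n : ℕ => ((1 : ℝ) / 3) ^ n :=
    summable_geometric_of_lt_one (by norm_num) (by norm_num)
  refine Summable.of_nat_of_neg ?_ ?_
  · simpa using h
  · simpa using h

theorem exp_bound {x : ℝ} (hx : |x| ≤ 8) (k : ℤ) :
    Real.exp (-|x + 2 * Real.pi * k|) * 3 ^ k.natAbs ≤ Real.exp 8 * (1 / 3) ^ k.natAbs := by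
  have h3 : 2 * Real.pi * |(k : ℝ)| - 8 ≤ |x + 2 * Real.pi * k| := by
    have := abs_sub_abs_le_abs_sub (2 * Real.pi * (k : ℝ)) (-x)
    rw [abs_neg, abs_mul, abs_of_pos (by positivity : (0 : ℝ) < 2 * Real.pi)] at this
    have h4 : 2 * Real.pi * (k : ℝ) - -x = x + 2 * Real.pi * k := by ring
    rw [h4] at this
    linarith
  have hn : |(k : ℝ)| = (k.natAbs : ℝ) := by
    rw [← Int.cast_abs, Int.abs_eq_natAbs]
    simp
  have h4 : Real.exp (-|x + 2 * Real.pi * k|) ≤ Real.exp 8 * (1 / 9) ^ k.natAbs := by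
    have h5 : Real.exp (-4) ≤ 1 / 9 := by
      rw [Real.exp_neg, ← one_div]
      apply one_div_le_one_div_of_le (by norm_num)
      have h6 := Real.add_one_le_exp (2 : ℝ)
      have h7 : Real.exp 4 = Real.exp 2 * Real.exp 2 := by
        rw [← Real.exp_add]
        norm_num
      rw [h7]
      nlinarith
    have h6 : Real.exp (-|x + 2 * Real.pi * k|) ≤ Real.exp (8 + (k.natAbs : ℝ) * (-4)) := by
      apply Real.exp_le_exp.2
      rw [hn] at h3
      have := Real.pi_gt_three
      have h8 : (0 : ℝ) ≤ k.natAbs := Nat.cast_nonneg _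
      nlinarith
    refine h6.trans ?_
    rw [Real.exp_add, Real.exp_nat_mul]
    exact mul_le_mul_of_nonneg_left (pow_le_pow_left₀ (Real.exp_pos _).le h5 _)
      (Real.exp_pos _).le
  calc Real.exp (-|x + 2 * Real.pi * k|) * 3 ^ k.natAbs
      ≤ Real.exp 8 * (1 / 9) ^ k.natAbs * 3 ^ k.natAbs :=
        mul_le_mul_of_nonneg_right h4 (by positivity)
    _ = Real.exp 8 * (1 / 3) ^ k.natAbs := by
        rw [mul_assoc, ← mul_pow]
        norm_num

theorem clo_close (J : Fin 3 → ℤ) :
    ∃ C : ℝ, 0 < C ∧ ∀ (b : ℝ → ℝ) (β β' : ℂ → ℂ) (ε : ℝ), ContDiff ℝ 1 b → HasCompactSupport b →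
    0 < ε → Near ε β β' b → ∀ P : V4, Core P → |(P 3).im| ≤ 8 →
      ‖TS β J P - TS (up b) J P‖ ≤ C * ε ∧
      ‖TD β β' J P - TD (up b) (up (deriv b)) J P‖ ≤ C * ε := by
  set S := ∑' k : ℤ, ((1 : ℝ) / 3) ^ k.natAbs with hS
  have hS0 : 0 ≤ S := tsum_nonneg fun k => by positivity
  set D := ‖lJ J‖ + ‖dw‖ + 1 with hDd
  have hD0 : 1 ≤ D := by
    have h1 := norm_nonneg (lJ J)
    have h2 := norm_nonneg dw
    linarith
  refine ⟨D * Real.exp 8 * (S + 1), by positivity, fun b β β' ε hb hs hε hn P hP hP8 => ?_⟩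
  obtain ⟨K, hK0, hK⟩ := supp_bound hs
  obtain ⟨N, hN⟩ := exists_nat_ge (K + (|(P 3).im| + 1))
  have hlt : |(P 3).im| < |(P 3).im| + 1 := by linarith
  -- the argument
  have hcore : ∀ k : ℤ, Core ((gE ^ k) P) := fun k => core_pow k hP
  have harg : ∀ k : ℤ, -(Complex.I * (gE ^ k) P 3) =
      (((P 3).im + 2 * Real.pi * k : ℝ) : ℂ) := by
    intro k
    rw [arg_core (hcore k), gE_pow_three]
    congr 1
    simp
  have hbd : ∀ k : ℤ, ε * Real.exp (-|(P 3).im + 2 * Real.pi * k|) * 3 ^ k.natAbs ≤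
      ε * Real.exp 8 * (1 / 3) ^ k.natAbs := by
    intro k
    have h1 := exp_bound hP8 k
    calc ε * Real.exp (-|(P 3).im + 2 * Real.pi * k|) * 3 ^ k.natAbs =
        ε * (Real.exp (-|(P 3).im + 2 * Real.pi * k|) * 3 ^ k.natAbs) := by ring
      _ ≤ ε * (Real.exp 8 * (1 / 3) ^ k.natAbs) := mul_le_mul_of_nonneg_left h1 hε.le
      _ = _ := by ring
  have hone : ∀ k : ℤ, (1 : ℝ) ≤ 3 ^ k.natAbs := fun k => one_le_pow₀ (by norm_num)
  have hsum : HasSum (fun k : ℤ => D * (ε * Real.exp 8) * (1 / 3) ^ k.natAbs)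
      (D * (ε * Real.exp 8) * S) := summable_third.hasSum.mul_left _
  have hfin : D * (ε * Real.exp 8) * S ≤ D * Real.exp 8 * (S + 1) * ε := by
    have h1 : 0 ≤ D * Real.exp 8 * ε := by positivity
    have h2 : D * Real.exp 8 * (S + 1) * ε = D * (ε * Real.exp 8) * S + D * Real.exp 8 * ε := by
      ring
    linarith
  constructor
  · set f : ℤ → ℂ := fun k => hC β J ((gE ^ k) P) with hf
    set g : ℤ → ℂ := fun k => hC (up b) J ((gE ^ k) P) with hg
    have h1 : ∀ k, ‖f k - g k‖ ≤ D * (ε * Real.exp 8) * (1 / 3) ^ k.natAbs := by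
      intro k
      have h2 : f k - g k = (β (((P 3).im + 2 * Real.pi * k : ℝ) : ℂ) -
          (b ((P 3).im + 2 * Real.pi * k) : ℂ)) * mon J ((gE ^ k) P) := by
        change β (-(Complex.I * (gE ^ k) P 3)) * mon J ((gE ^ k) P) -
          up b (-(Complex.I * (gE ^ k) P 3)) * mon J ((gE ^ k) P) = _
        rw [harg k]
        unfold up
        rw [Complex.ofReal_re]
        ring
      rw [h2, norm_mul, norm_mon_core J (hcore k), mul_one]
      have h3 := (hn ((P 3).im + 2 * Real.pi * k)).1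
      have h4 := hbd k
      have h5 : ε * Real.exp (-|(P 3).im + 2 * Real.pi * k|) ≤
          ε * Real.exp (-|(P 3).im + 2 * Real.pi * k|) * 3 ^ k.natAbs :=
        le_mul_of_one_le_right (by positivity) (hone k)
      have h6 : 0 ≤ ε * Real.exp 8 * (1 / 3) ^ k.natAbs := by positivity
      have h7 : ε * Real.exp 8 * (1 / 3) ^ k.natAbs ≤
          D * (ε * Real.exp 8) * (1 / 3) ^ k.natAbs := by
        rw [mul_assoc D]
        exact le_mul_of_one_le_left h6 hD0
      linarith
    have hgs : Summable g := by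
      refine summable_of_ne_finset_zero (s := Finset.Icc (-(N : ℤ)) N) fun k hk => ?_
      exact hC_zero hK J (far hlt hN hk)
    have hds : Summable fun k => f k - g k :=
      Summable.of_norm_bounded hsum.summable h1
    have hfs : Summable f := by
      have := hds.add hgs
      simpa using this
    have h2 : TS β J P - TS (up b) J P = ∑' k, (f k - g k) := (hfs.tsum_sub hgs).symm
    rw [h2]
    exact (tsum_of_norm_bounded hsum h1).trans hfin
  · set f : ℤ → V4 →L[ℂ] ℂ := fun k => (hD β β' J ((gE ^ k) P)).comp (gk k) with hf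
    set g : ℤ → V4 →L[ℂ] ℂ := fun k =>
      (hD (up b) (up (deriv b)) J ((gE ^ k) P)).comp (gk k) with hg
    have h1 : ∀ k, ‖f k - g k‖ ≤ D * (ε * Real.exp 8) * (1 / 3) ^ k.natAbs := by
      intro k
      set x : ℝ := (P 3).im + 2 * Real.pi * k with hx
      set Q := (gE ^ k) P with hQ
      have hQc : -(Complex.I * Q 3) = (x : ℂ) := harg k
      have h2 : f k - g k = (((β x - (b x : ℂ)) * mon J Q) • lJ J +
          (-(Complex.I * (β' x - ((deriv b x : ℝ) : ℂ))) * mon J Q) • dw).comp (gk k) := by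
        change (hD β β' J Q).comp (gk k) - (hD (up b) (up (deriv b)) J Q).comp (gk k) = _
        rw [← ContinuousLinearMap.sub_comp]
        congr 1
        unfold hD up
        rw [hQc, Complex.ofReal_re]
        apply ContinuousLinearMap.ext
        intro v
        simp only [ContinuousLinearMap.sub_apply, ContinuousLinearMap.add_apply,
          ContinuousLinearMap.smul_apply, smul_eq_mul]
        ring
      have hm : ‖mon J Q‖ = 1 := norm_mon_core J (hcore k)
      have h3 := hn x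
      have h4 : ‖((β x - (b x : ℂ)) * mon J Q) • lJ J +
          (-(Complex.I * (β' x - ((deriv b x : ℝ) : ℂ))) * mon J Q) • dw‖ ≤
          D * (ε * Real.exp (-|x|)) := by
        refine (norm_add_le _ _).trans ?_
        rw [norm_smul, norm_smul, norm_mul, norm_mul, norm_neg, norm_mul, Complex.norm_I, hm,
          mul_one, mul_one, one_mul]
        have h5 := mul_le_mul_of_nonneg_right h3.1 (norm_nonneg (lJ J))
        have h6 := mul_le_mul_of_nonneg_right h3.2 (norm_nonneg dw)
        have h7 : 0 ≤ ε * Real.exp (-|x|) := by positivity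
        rw [hDd]
        linarith
      have h5 : ‖gk k‖ ≤ (3 : ℝ) ^ k.natAbs :=
        ContinuousLinearMap.opNorm_le_bound _ (by positivity) (norm_gk_le k)
      rw [h2]
      refine (ContinuousLinearMap.opNorm_comp_le _ _).trans ?_
      refine (mul_le_mul h4 h5 (norm_nonneg _) (by positivity)).trans ?_
      have h6 := mul_le_mul_of_nonneg_left (hbd k) (zero_le_one.trans hD0)
      calc D * (ε * Real.exp (-|x|)) * 3 ^ k.natAbs =
          D * (ε * Real.exp (-|x|) * 3 ^ k.natAbs) := by ring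
        _ ≤ D * (ε * Real.exp 8 * (1 / 3) ^ k.natAbs) := h6
        _ = _ := by ring
    have hgs : Summable g := by
      refine summable_of_ne_finset_zero (s := Finset.Icc (-(N : ℤ)) N) fun k hk => ?_
      exact hD_zero hK J (far hlt hN hk)
    have hds : Summable fun k => f k - g k :=
      Summable.of_norm_bounded hsum.summable h1
    have hfs : Summable f := by
      have := hds.add hgs
      simpa using this
    have h2 : TD β β' J P - TD (up b) (up (deriv b)) J P = ∑' k, (f k - g k) :=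
      (hfs.tsum_sub hgs).symm
    rw [h2]
    exact (tsum_of_norm_bounded hsum h1).trans hfin

theorem clo : S_ACT1 → S_CLO := fun _ J => ⟨fun _ hb hs => clo_cont J hb hs, clo_close J⟩

end Pool.Agent.Helper14.AB
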